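import Mathlib
import Pool.Agent.V11115.Rooted

/-!
For every tree the up-color domination weight is at most the Roman domination number,
with strict inequality as soon as the tree has at least two vertices.
-/

namespace Pool.Agent.Results.MP_ca77af_co.TreesUpColorRoman

open SimpleGraph V11115

/-- `c` is a (proper) coloring with colors `0, 1, 2, …`. -/
def IsColoring {V : Type} (G : SimpleGraph V) (c : V → ℕ) : Prop :=
  ∀ u v, G.Adj u v → c u ≠ c v

/-- `D` is an up-color dominating `c`-set. -/
def IsUpColorDominating {V : Type} (G : SimpleGraph V) (c : V → ℕ) (D : Finset V) : Prop :=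
  (∀ v, v ∉ D → ∃ d ∈ D, G.Adj v d ∧ c v < c d) ∧ ∀ d ∈ D, c d ≠ 0

/-- The up-color domination weight. -/
noncomputable def upColorWeight {V : Type} (G : SimpleGraph V) : ℕ :=
  sInf {k | ∃ (c : V → ℕ) (D : Finset V),
    IsColoring G c ∧ IsUpColorDominating G c D ∧ ∑ d ∈ D, c d = k}

/-- `f` is a Roman dominating function. -/
def IsRoman {V : Type} (G : SimpleGraph V) (f : V → ℕ) : Prop :=
  (∀ v, f v ≤ 2) ∧ ∀ u, f u = 0 → ∃ v, G.Adj u v ∧ f v = 2

/-- The Roman domination number. -/
noncomputable def romanNumber {V : Type} [Fintype V] (G : SimpleGraph V) : ℕ :=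
  sInf {k | ∃ f : V → ℕ, IsRoman G f ∧ ∑ v, f v = k}

/-- A minimum Roman dominating function with fewest ones. -/
theorem exists_good {V : Type} [Fintype V] (G : SimpleGraph V) :
    ∃ f : V → ℕ, IsRoman G f ∧ ∑ v, f v = romanNumber G ∧
      ∀ u v, G.Adj u v → f u = 1 → f v = 0 := by
  classical
  have hne : {k | ∃ f : V → ℕ, IsRoman G f ∧ ∑ v, f v = k}.Nonempty :=
    ⟨_, fun _ => 2, ⟨fun _ => le_refl 2, fun u hu => by simp at hu⟩, rfl⟩
  obtain ⟨f0, hf0, hf0k⟩ := Nat.sInf_mem hne
  have hmin : ∀ f : V → ℕ, IsRoman G f → romanNumber G ≤ ∑ v, f v :=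
    fun f hf => Nat.sInf_le ⟨f, hf, rfl⟩
  let S : Set ℕ := {m | ∃ f : V → ℕ, IsRoman G f ∧ ∑ v, f v = romanNumber G ∧
    (Finset.univ.filter (fun v => f v = 1)).card = m}
  have hS : S.Nonempty := ⟨_, f0, hf0, hf0k, rfl⟩
  obtain ⟨f, hf, hfk, hfm⟩ := Nat.sInf_mem hS
  have hmin2 : ∀ g : V → ℕ, IsRoman G g → ∑ v, g v = romanNumber G →
      (Finset.univ.filter (fun v => f v = 1)).card ≤
        (Finset.univ.filter (fun v => g v = 1)).card := by
    intro g hg hgk
    rw [hfm]
    exact Nat.sInf_le ⟨g, hg, hgk, rfl⟩
  refine ⟨f, hf, hfk, ?_⟩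
  intro u v huv hu
  have hv2 := hf.1 v
  interval_cases h : f v
  · rfl
  · exfalso
    -- both are 1
    have hne : u ≠ v := huv.ne
    let g : V → ℕ := Function.update (Function.update f u 2) v 0
    have hgv : g v = 0 := by simp [g]
    have hgu : g u = 2 := by simp [g, hne]
    have hgo : ∀ w, w ≠ u → w ≠ v → g w = f w := by
      intro w h1 h2; simp [g, h1, h2]
    have hg : IsRoman G g := by
      refine ⟨?_, ?_⟩
      · intro w
        by_cases h1 : w = v
        · rw [h1, hgv]; omega
        · by_cases h2 : w = u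
          · rw [h2, hgu]
          · rw [hgo w h2 h1]; exact hf.1 w
      · intro w hw
        by_cases h1 : w = v
        · subst h1; exact ⟨u, huv.symm, hgu⟩
        · by_cases h2 : w = u
          · rw [h2, hgu] at hw; omega
          · rw [hgo w h2 h1] at hw
            obtain ⟨x, hx, hx2⟩ := hf.2 w hw
            refine ⟨x, hx, ?_⟩
            rw [hgo x]
            · exact hx2
            · rintro rfl; omega
            · rintro rfl; omega
    have hsum : ∑ w, g w = ∑ w, f w := by
      have e1 : ∑ w, g w = g u + (g v + ∑ w ∈ (Finset.univ.erase u).erase v, g w) := by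
        rw [Finset.add_sum_erase _ _ (by simp [hne.symm]), Finset.add_sum_erase _ _ (by simp)]
      have e2 : ∑ w, f w = f u + (f v + ∑ w ∈ (Finset.univ.erase u).erase v, f w) := by
        rw [Finset.add_sum_erase _ _ (by simp [hne.symm]), Finset.add_sum_erase _ _ (by simp)]
      have e3 : ∑ w ∈ (Finset.univ.erase u).erase v, g w
          = ∑ w ∈ (Finset.univ.erase u).erase v, f w := by
        apply Finset.sum_congr rfl
        intro w hw
        simp only [Finset.mem_erase] at hw
        exact hgo w hw.2.1 hw.1
      rw [e1, e2, e3, hgu, hgv, hu, h]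
      ring
    have h1 := hmin2 g hg (by rw [hsum, hfk])
    have h2 : (Finset.univ.filter (fun w => g w = 1)) ⊂ (Finset.univ.filter (fun w => f w = 1)) := by
      rw [Finset.ssubset_iff_of_subset]
      · refine ⟨u, by simpa using hu, by simp [hgu]⟩
      · intro w hw
        simp only [Finset.mem_filter, Finset.mem_univ, true_and] at hw ⊢
        by_cases h1 : w = v
        · rw [h1, hgv] at hw; omega
        · by_cases h2 : w = u
          · rw [h2, hgu] at hw; omega
          · rw [← hgo w h2 h1]; exact hw
    have := Finset.card_lt_card h2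
    omega
  · exfalso
    have hne : u ≠ v := huv.ne
    let g : V → ℕ := Function.update f u 0
    have hgu : g u = 0 := by simp [g]
    have hgo : ∀ w, w ≠ u → g w = f w := by
      intro w h1; simp [g, h1]
    have hg : IsRoman G g := by
      refine ⟨?_, ?_⟩
      · intro w
        by_cases h2 : w = u
        · rw [h2, hgu]; omega
        · rw [hgo w h2]; exact hf.1 w
      · intro w hw
        by_cases h2 : w = u
        · subst h2; exact ⟨v, huv, by rw [hgo v hne.symm, h]⟩
        · rw [hgo w h2] at hw
          obtain ⟨x, hx, hx2⟩ := hf.2 w hw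
          refine ⟨x, hx, ?_⟩
          rw [hgo x]
          · exact hx2
          · rintro rfl; omega
    have h1 := hmin g hg
    have e1 : ∑ w, g w = g u + ∑ w ∈ Finset.univ.erase u, g w := by
      rw [Finset.add_sum_erase _ _ (by simp)]
    have e2 : ∑ w, f w = f u + ∑ w ∈ Finset.univ.erase u, f w := by
      rw [Finset.add_sum_erase _ _ (by simp)]
    have e3 : ∑ w ∈ Finset.univ.erase u, g w = ∑ w ∈ Finset.univ.erase u, f w := by
      apply Finset.sum_congr rfl
      intro w hw
      simp only [Finset.mem_erase] at hw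
      exact hgo w hw.1
    rw [e1, e3, hgu] at h1
    rw [e2, hu] at hfk
    omega

theorem main {V : Type} [Fintype V] {G : SimpleGraph V} (R : Rooting G) (f : V → ℕ)
    (hf : IsRoman G f) (h1 : ∀ u v, G.Adj u v → f u = 1 → f v = 0) (hroot : f R.root = 2) :
    ∃ (c : V → ℕ) (D : Finset V), IsColoring G c ∧ IsUpColorDominating G c D ∧
      ∑ d ∈ D, c d < ∑ v, f v := by
  classical
  -- the colour of the parent and whether the parent is a centre
  let F : ℕ → V → ℕ := fun s v =>
    if f (R.par v) = 2 then (if f v = 2 then 3 - s else 0)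
    else (if f v = 2 then 2 else 1 - s)
  let c : V → ℕ := R.lab 1 F
  have c_root : c R.root = 1 := R.lab_root 1 F
  have c_ne : ∀ v, v ≠ R.root → c v =
      if f (R.par v) = 2 then (if f v = 2 then 3 - c (R.par v) else 0)
      else (if f v = 2 then 2 else 1 - c (R.par v)) := fun v hv => R.lab_of_ne 1 F hv
  have c_two : ∀ v, f v = 2 → c v = 1 ∨ c v = 2 := by
    apply R.induct (P := fun v => f v = 2 → c v = 1 ∨ c v = 2)
    · intro _; left; exact c_root
    · intro v hv ih hfv
      rw [c_ne v hv]
      by_cases hp : f (R.par v) = 2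
      · rcases ih hp with h | h <;> simp [hp, hfv, h]
      · simp [hp, hfv]
  have c_F : ∀ v, f v ≠ 2 → c v = 0 ∨ c v = 1 := by
    intro v hfv
    have hv : v ≠ R.root := by rintro rfl; exact hfv hroot
    rw [c_ne v hv]
    by_cases hp : f (R.par v) = 2
    · simp [hp, hfv]
    · simp [hp, hfv]; omega
  have hcol0 : ∀ v, v ≠ R.root → c v ≠ c (R.par v) := by
    intro v hv
    rw [c_ne v hv]
    by_cases hp : f (R.par v) = 2
    · by_cases hfv : f v = 2
      · rcases c_two _ hp with h | h <;> simp [hp, hfv, h]
      · rcases c_two _ hp with h | h <;> simp [hp, hfv, h]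
    · by_cases hfv : f v = 2
      · rcases c_F _ hp with h | h <;> simp [hp, hfv, h]
      · rcases c_F _ hp with h | h <;> simp [hp, hfv, h]
  -- the dominating set
  let A : Finset V := Finset.univ.filter (fun v => f v = 2)
  let B : Finset V := Finset.univ.filter (fun v => f v = 1 ∧ c v = 1)
  let B' : Finset V := Finset.univ.filter (fun v => f v = 1 ∧ c v = 0)
  let C : Finset V := B'.image R.par
  -- facts on `B'`
  have hB' : ∀ v, f v = 1 → v ≠ R.root ∧ f (R.par v) = 0 := by
    intro v hv
    have hvr : v ≠ R.root := by rintro rfl; omega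
    refine ⟨hvr, h1 v _ ?_ hv⟩
    rw [R.adj_iff]; left; exact ⟨hvr, rfl⟩
  have hB'1 : ∀ v, f v = 1 → c v = 0 → c (R.par v) = 1 := by
    intro v hv hcv
    obtain ⟨hvr, hp⟩ := hB' v hv
    have := c_ne v hvr
    rw [hcv] at this
    have h2 : f (R.par v) ≠ 2 := by omega
    have h3 : f v ≠ 2 := by omega
    simp only [h2, h3, if_false] at this
    rcases c_F _ h2 with h | h <;> omega
  have hC : ∀ d ∈ C, c d = 1 ∧ f d = 0 := by
    intro d hd
    simp only [C, B', Finset.mem_image, Finset.mem_filter, Finset.mem_univ, true_and] at hd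
    obtain ⟨v, ⟨hv1, hv2⟩, rfl⟩ := hd
    exact ⟨hB'1 v hv1 hv2, (hB' v hv1).2⟩
  refine ⟨c, A ∪ (B ∪ C), ?_, ⟨?_, ?_⟩, ?_⟩
  · intro u v huv
    rcases (R.adj_iff u v).mp huv with ⟨a, b⟩ | ⟨a, b⟩
    · subst b; exact hcol0 u a
    · subst b; exact (hcol0 v a).symm
  · intro v hv
    simp only [Finset.mem_union, not_or] at hv
    obtain ⟨hvA, hvB, hvC⟩ := hv
    have hfv2 : f v ≠ 2 := by
      intro h; exact hvA (by simp [A, h])
    have hvr : v ≠ R.root := by rintro rfl; exact hfv2 hroot
    have hle := hf.1 v
    have : f v = 0 ∨ f v = 1 := by omega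
    rcases this with h | h
    · obtain ⟨x, hx, hx2⟩ := hf.2 v h
      refine ⟨x, by simp [A, hx2], hx, ?_⟩
      rcases (R.adj_iff v x).mp hx with ⟨a, b⟩ | ⟨a, b⟩
      · have := c_ne v hvr
        rw [b, hx2] at this
        simp only [if_true, hfv2, if_false] at this
        rw [this]
        rcases c_two x hx2 with h' | h' <;> omega
      · have := c_ne x a
        rw [b] at this
        simp only [hx2, hfv2, if_true, if_false] at this
        rw [this]
        rcases c_F v hfv2 with h' | h' <;> omega
    · have hcv : c v = 0 := by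
        rcases c_F v hfv2 with h' | h'
        · exact h'
        · exact absurd (by simp [B, h, h']) hvB
      refine ⟨R.par v, ?_, ?_, ?_⟩
      · simp only [Finset.mem_union]
        right; right
        exact Finset.mem_image_of_mem _ (by simp [B', h, hcv])
      · rw [R.adj_iff]; left; exact ⟨hvr, rfl⟩
      · rw [hcv, hB'1 v h hcv]; omega
  · intro d hd
    simp only [Finset.mem_union] at hd
    rcases hd with hd | hd | hd
    · have : f d = 2 := by simpa [A] using hd
      rcases c_two d this with h | h <;> omega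
    · have : f d = 1 ∧ c d = 1 := by simpa [B] using hd
      omega
    · have := (hC d hd).1; omega
  · have hsA : ∑ d ∈ A, c d < ∑ d ∈ A, f d := by
      apply Finset.sum_lt_sum
      · intro d hd
        have : f d = 2 := by simpa [A] using hd
        rcases c_two d this with h | h <;> omega
      · exact ⟨R.root, by simp [A, hroot], by rw [c_root, hroot]; omega⟩
    have hsB : ∑ d ∈ B, c d = B.card := by
      rw [Finset.card_eq_sum_ones]
      apply Finset.sum_congr rfl
      intro d hd
      have : f d = 1 ∧ c d = 1 := by simpa [B] using hd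
      exact this.2
    have hsC : ∑ d ∈ C, c d = C.card := by
      rw [Finset.card_eq_sum_ones]
      apply Finset.sum_congr rfl
      intro d hd
      exact (hC d hd).1
    have hCc : C.card ≤ B'.card := Finset.card_image_le
    have hle1 : ∑ d ∈ A ∪ (B ∪ C), c d ≤ ∑ d ∈ A, c d + (∑ d ∈ B, c d + ∑ d ∈ C, c d) := by
      have e1 := Finset.sum_union_inter (s₁ := A) (s₂ := B ∪ C) (f := c)
      have e2 := Finset.sum_union_inter (s₁ := B) (s₂ := C) (f := c)
      omega
    have hsum : ∑ v, f v = ∑ d ∈ A, f d + (B.card + B'.card) := by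
      have e1 : ∀ v, f v = (if f v = 2 then f v else 0) + ((if f v = 1 ∧ c v = 1 then 1 else 0)
          + (if f v = 1 ∧ c v = 0 then 1 else 0)) := by
        intro v
        have := hf.1 v
        by_cases h2 : f v = 2
        · simp [h2]
        · rcases c_F v h2 with h' | h'
          · simp [h2, h']; split_ifs <;> omega
          · simp [h2, h']; split_ifs <;> omega
      rw [Finset.sum_congr rfl (fun v _ => e1 v), Finset.sum_add_distrib, Finset.sum_add_distrib]
      congr 1
      · rw [← Finset.sum_filter]
      · congr 1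
        · rw [Finset.card_filter]
        · rw [Finset.card_filter]
    omega

/-- For every tree `T`, `Ω_uc(T) ≤ γ_r(T)`, and the inequality is strict if `T` has at least two
vertices. -/
theorem result {V : Type} [Fintype V] (G : SimpleGraph V) (hG : G.IsTree) :
    upColorWeight G ≤ romanNumber G ∧
      (2 ≤ Fintype.card V → upColorWeight G < romanNumber G) := by
  classical
  obtain ⟨f, hf, hfk, hf1⟩ := exists_good G
  by_cases h2 : ∃ r, f r = 2
  · obtain ⟨r, hr⟩ := h2
    obtain ⟨R, hRr⟩ := exists_rooting hG r
    subst hRr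
    obtain ⟨c, D, hc, hD, hlt⟩ := main R f hf hf1 hr
    have hle : upColorWeight G ≤ ∑ d ∈ D, c d := Nat.sInf_le ⟨c, D, hc, hD, rfl⟩
    rw [hfk] at hlt
    exact ⟨by omega, fun _ => by omega⟩
  · push Not at h2
    -- all values are 1, so there is no edge
    have hone : ∀ v, f v = 1 := by
      intro v
      have h3 := hf.1 v
      have h4 := h2 v
      by_contra h5
      have h6 : f v = 0 := by omega
      obtain ⟨x, _, hx⟩ := hf.2 v h6
      exact h2 x hx
    have hnadj : ∀ u v, ¬ G.Adj u v := by
      intro u v huv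
      have := hf1 u v huv (hone u)
      rw [hone v] at this
      omega
    obtain ⟨x⟩ := hG.connected.nonempty
    have hsub : ∀ v, v = x := by
      intro v
      by_contra hv
      obtain ⟨R, hR⟩ := exists_rooting hG x
      subst hR
      exact hnadj v (R.par v) ((R.adj_iff _ _).mpr (Or.inl ⟨hv, rfl⟩))
    have hcard : Fintype.card V = 1 := Fintype.card_eq_one_iff.mpr ⟨x, hsub⟩
    have hR : romanNumber G = 1 := by
      rw [← hfk, Finset.sum_congr rfl (fun v _ => hone v), Finset.sum_const, Finset.card_univ,
        hcard]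
      rfl
    refine ⟨?_, fun h => by omega⟩
    rw [hR]
    refine Nat.sInf_le ⟨fun _ => 1, {x}, fun u v h => absurd h (hnadj u v), ⟨?_, ?_⟩, by simp⟩
    · intro v hv; exact absurd (hsub v) (by simpa using hv)
    · intro d _; simp

end Pool.Agent.Results.MP_ca77af_co.TreesUpColorRoman
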